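import Pool.Agent.W979.TE.Defs3

set_option autoImplicit false

open Classical

namespace Pool.Agent.W195.TE3E3

open Pool.Agent.W715.BC Pool.Agent.W979.TE3

/-- the bad star predicate -/
def Ev {A B : Type} [Fintype A] [Fintype B] (r : A → B → Prop) (s q t M1 : ℕ) :
    A → (Fin (q + 1) → B) → (Fin (q + 1) → A) → Prop :=
  fun v _ Q => ¬ ((∀ k, Lk r (LT s q t) v (Q k)) ∧ (Ft r (LT s q t) Q).card < M1)

theorem cover {A B : Type} [Fintype A] [Fintype B] (r : A → B → Prop) (s q t M1 : ℕ)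
    (hs : 1 ≤ s) (z : Cop A B s q) (hz : Hm r z) :
    CC r (LT s q t) M1 z ∨ (Hm r z ∧ ¬ Inj z) ∨ ∃ i : Fin s,
      (Hm r z ∧ Ev r s q t M1 (z.1 (some i)) (Fin.cons (z.2.2.1 i) (z.2.2.2 (some i)))
        (Fin.cons (z.1 none) (z.2.1 (some i)))) ∨
      (Hm r z ∧ Ev r s q t M1 (z.1 none) (Fin.cons (z.2.2.1 i) (z.2.2.2 none))
        (Fin.cons (z.1 (some i)) (z.2.1 none))) := by
  by_cases hI : Inj z
  swap
  · exact Or.inr (Or.inl ⟨hz, hI⟩)
  by_cases hE : ∃ i : Fin s,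
      (Hm r z ∧ Ev r s q t M1 (z.1 (some i)) (Fin.cons (z.2.2.1 i) (z.2.2.2 (some i)))
        (Fin.cons (z.1 none) (z.2.1 (some i)))) ∨
      (Hm r z ∧ Ev r s q t M1 (z.1 none) (Fin.cons (z.2.2.1 i) (z.2.2.2 none))
        (Fin.cons (z.1 (some i)) (z.2.1 none)))
  · exact Or.inr (Or.inr hE)
  left
  have h1 : ∀ i : Fin s, (∀ k, Lk r (LT s q t) (z.1 (some i))
      ((Fin.cons (z.1 none) (z.2.1 (some i)) : Fin (q + 1) → A) k)) ∧
      (Ft r (LT s q t) (Fin.cons (z.1 none) (z.2.1 (some i)) : Fin (q + 1) → A)).card < M1 := by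
    intro i
    by_contra hc
    exact hE ⟨i, Or.inl ⟨hz, hc⟩⟩
  have h2 : ∀ i : Fin s, (∀ k, Lk r (LT s q t) (z.1 none)
      ((Fin.cons (z.1 (some i)) (z.2.1 none) : Fin (q + 1) → A) k)) ∧
      (Ft r (LT s q t) (Fin.cons (z.1 (some i)) (z.2.1 none) : Fin (q + 1) → A)).card < M1 := by
    intro i
    by_contra hc
    exact hE ⟨i, Or.inr ⟨hz, hc⟩⟩
  refine ⟨hz, hI, ?_, ?_, fun i => (h1 i).2, fun i => (h2 i).2⟩
  · intro i
    have := (h2 i).1 0
    simpa using this
  · intro x l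
    cases x with
    | none =>
      have := (h2 ⟨0, hs⟩).1 l.succ
      simpa using this
    | some i =>
      have := (h1 i).1 l.succ
      simpa using this

theorem e3 : S_HC → S_CO → S_MST → S_ST → S_E3 := by
  intro hHC hCO hMST hST s q t K hs hq ht hK
  obtain ⟨C', hCO⟩ := hCO s q K hK
  have hKr : (1 : ℝ) ≤ (K : ℝ) := by exact_mod_cast hK
  have hsr : (1 : ℝ) ≤ (s : ℝ) := by exact_mod_cast hs
  have hKp : (0 : ℝ) < (K : ℝ) ^ (2 * hh s q) := by positivity
  have hε : (0 : ℝ) < 1 / (8 * s * (K : ℝ) ^ (2 * hh s q)) := by positivity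
  obtain ⟨M1, C, hST⟩ := hST s q t K _ hq ht hK hε
  refine ⟨M1, max C (max 1 (8 * C')), ?_⟩
  intro A B _ _ _ r D hReg hCD hCA hnb
  have hD1 : (1 : ℝ) ≤ (D : ℝ) := le_trans (le_trans (le_max_left _ _) (le_max_right _ _)) hCD
  have hD8 : 8 * C' ≤ (D : ℝ) := le_trans (le_trans (le_max_right _ _) (le_max_right _ _)) hCD
  have hCD' : C ≤ (D : ℝ) := le_trans (le_max_left _ _) hCD
  have hCA' : C * (Fintype.card A : ℝ) ^ (q - 1) ≤ (D : ℝ) ^ (2 * q + 2) := by
    refine le_trans ?_ hCA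
    apply mul_le_mul_of_nonneg_right (le_max_left _ _)
    positivity
  have hst := hST A B r D hReg hCD' hCA' hnb
  obtain ⟨hlo, -⟩ := hHC s q K A B r D hReg
  have hco := hCO A B r D hReg
  set a : ℝ := (Fintype.card A : ℝ) with ha
  have ha0 : 0 ≤ a := by positivity
  set d : ℝ := (D : ℝ) with hd
  -- exponents
  have hexp : 2 * (q + 1) ≤ 2 * hh s q := by
    have : q + 1 ≤ hh s q := by
      unfold hh
      nlinarith
    omega
  -- bound for the stars
  have hstar : ∀ X : ℕ, X ≤ (K * D) ^ (2 * hh s q - 2 * (q + 1)) * StH r q (Ev r s q t M1) →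
      (X : ℝ) ≤ 1 / (8 * s) * (a * d ^ (2 * hh s q)) := by
    intro X hX
    have h1 : (X : ℝ) ≤ ((K : ℝ) * d) ^ (2 * hh s q - 2 * (q + 1)) *
        (StH r q (Ev r s q t M1) : ℝ) := by
      rw [hd]
      exact_mod_cast hX
    have h2 : (StH r q (Ev r s q t M1) : ℝ) ≤
        1 / (8 * s * (K : ℝ) ^ (2 * hh s q)) * a * d ^ (2 * q + 2) := hst
    have h3 : ((K : ℝ) * d) ^ (2 * hh s q - 2 * (q + 1)) *
        (StH r q (Ev r s q t M1) : ℝ) ≤ ((K : ℝ) * d) ^ (2 * hh s q - 2 * (q + 1)) *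
        (1 / (8 * s * (K : ℝ) ^ (2 * hh s q)) * a * d ^ (2 * q + 2)) :=
      mul_le_mul_of_nonneg_left h2 (by positivity)
    have h4 : (K : ℝ) ^ (2 * hh s q - 2 * (q + 1)) ≤ (K : ℝ) ^ (2 * hh s q) :=
      pow_le_pow_right₀ hKr (Nat.sub_le _ _)
    have h5 : d ^ (2 * hh s q - 2 * (q + 1)) * d ^ (2 * q + 2) = d ^ (2 * hh s q) := by
      rw [← pow_add]
      congr 1
      omega
    calc (X : ℝ) ≤ _ := h1
      _ ≤ _ := h3
      _ = (K : ℝ) ^ (2 * hh s q - 2 * (q + 1)) * (1 / (8 * s * (K : ℝ) ^ (2 * hh s q))) *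
          (a * (d ^ (2 * hh s q - 2 * (q + 1)) * d ^ (2 * q + 2))) := by
        rw [mul_pow]; ring
      _ = (K : ℝ) ^ (2 * hh s q - 2 * (q + 1)) * (1 / (8 * s * (K : ℝ) ^ (2 * hh s q))) *
          (a * d ^ (2 * hh s q)) := by rw [h5]
      _ ≤ (K : ℝ) ^ (2 * hh s q) * (1 / (8 * s * (K : ℝ) ^ (2 * hh s q))) *
          (a * d ^ (2 * hh s q)) := by
        apply mul_le_mul_of_nonneg_right _ (by positivity)
        exact mul_le_mul_of_nonneg_right h4 hε.le
      _ = 1 / (8 * s) * (a * d ^ (2 * hh s q)) := by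
        field_simp
  -- the cover
  set H := Finset.univ.filter (fun z : Cop A B s q => Hm r z) with hH
  set G := Finset.univ.filter (fun z : Cop A B s q => CC r (LT s q t) M1 z) with hG
  set N := Finset.univ.filter (fun z : Cop A B s q => Hm r z ∧ ¬ Inj z) with hN
  set S1 : Fin s → Finset (Cop A B s q) := fun i => Finset.univ.filter
    (fun z : Cop A B s q => Hm r z ∧
      Ev r s q t M1 (z.1 (some i)) (Fin.cons (z.2.2.1 i) (z.2.2.2 (some i)))
        (Fin.cons (z.1 none) (z.2.1 (some i)))) with hS1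
  set S2 : Fin s → Finset (Cop A B s q) := fun i => Finset.univ.filter
    (fun z : Cop A B s q => Hm r z ∧
      Ev r s q t M1 (z.1 none) (Fin.cons (z.2.2.1 i) (z.2.2.2 none))
        (Fin.cons (z.1 (some i)) (z.2.1 none))) with hS2
  have hcov : H ⊆ G ∪ (N ∪ Finset.univ.biUnion (fun i => S1 i ∪ S2 i)) := by
    intro z hz
    have hz' : Hm r z := (Finset.mem_filter.mp hz).2
    rcases cover r s q t M1 hs z hz' with h | h | ⟨i, h | h⟩
    · exact Finset.mem_union_left _ (Finset.mem_filter.mpr ⟨Finset.mem_univ _, h⟩)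
    · exact Finset.mem_union_right _ (Finset.mem_union_left _
        (Finset.mem_filter.mpr ⟨Finset.mem_univ _, h⟩))
    · exact Finset.mem_union_right _ (Finset.mem_union_right _
        (Finset.mem_biUnion.mpr ⟨i, Finset.mem_univ _, Finset.mem_union_left _
          (Finset.mem_filter.mpr ⟨Finset.mem_univ _, h⟩)⟩))
    · exact Finset.mem_union_right _ (Finset.mem_union_right _
        (Finset.mem_biUnion.mpr ⟨i, Finset.mem_univ _, Finset.mem_union_right _
          (Finset.mem_filter.mpr ⟨Finset.mem_univ _, h⟩)⟩))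
  have hcard : H.card ≤ G.card + (N.card + ∑ i : Fin s, ((S1 i).card + (S2 i).card)) := by
    refine (Finset.card_le_card hcov).trans ((Finset.card_union_le _ _).trans ?_)
    refine Nat.add_le_add_left ((Finset.card_union_le _ _).trans ?_) _
    refine Nat.add_le_add_left (Finset.card_biUnion_le.trans ?_) _
    exact Finset.sum_le_sum (fun i _ => Finset.card_union_le _ _)
  have hcardR : (H.card : ℝ) ≤ (G.card : ℝ) + ((N.card : ℝ) +
      ∑ i : Fin s, (((S1 i).card : ℝ) + ((S2 i).card : ℝ))) := by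
    exact_mod_cast hcard
  have hS : ∑ i : Fin s, (((S1 i).card : ℝ) + ((S2 i).card : ℝ)) ≤
      1 / 4 * (a * d ^ (2 * hh s q)) := by
    calc ∑ i : Fin s, (((S1 i).card : ℝ) + ((S2 i).card : ℝ)) ≤
        ∑ _i : Fin s, (1 / (8 * s) * (a * d ^ (2 * hh s q)) +
          1 / (8 * s) * (a * d ^ (2 * hh s q))) := by
          apply Finset.sum_le_sum
          intro i _
          have := hMST s q K A B r D (Ev r s q t M1) i hReg
          exact add_le_add (hstar _ this.1) (hstar _ this.2)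
      _ = 1 / 4 * (a * d ^ (2 * hh s q)) := by
          rw [Finset.sum_const, Finset.card_univ, Fintype.card_fin, nsmul_eq_mul]
          field_simp
          ring
  have hN' : (N.card : ℝ) ≤ 1 / 8 * (a * d ^ (2 * hh s q)) := by
    have h1 : (N.card : ℝ) * d ≤ C' * a * d ^ (2 * hh s q) := hco
    have h2 : C' * a * d ^ (2 * hh s q) ≤ (1 / 8 * (a * d ^ (2 * hh s q))) * d := by
      have h3 : 0 ≤ a * d ^ (2 * hh s q) := by positivity
      nlinarith
    have h4 : (N.card : ℝ) * d ≤ (1 / 8 * (a * d ^ (2 * hh s q))) * d := h1.trans h2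
    exact le_of_mul_le_mul_right h4 (by linarith)
  have hlo' : a * d ^ (2 * hh s q) ≤ (H.card : ℝ) := by
    rw [ha, hd]
    exact_mod_cast hlo
  have h0 : 0 ≤ a * d ^ (2 * hh s q) := by positivity
  have : (1 / 2 : ℝ) * a * d ^ (2 * hh s q) = 1 / 2 * (a * d ^ (2 * hh s q)) := by ring
  rw [this]
  linarith

end Pool.Agent.W195.TE3E3

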